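import Pool.Agent.H79.FS.Fin2

set_option autoImplicit false

/-! MP_17dcc8_co: in an orthogonal tree linkage, two flat states that agree up to congruence on a
subtree, outside of which the tree consists of straight branches hanging perpendicularly on it, are
joined in the free space. -/

namespace Pool.Agent.Results.MP_17dcc8_co.EndBranches

open Pool.FS79

/-- Let `G` be an orthogonal tree linkage of shape `p` and free space `S`, and `C` a connected set
of vertices containing at least one link, such that every link leaving `C` at `b` is perpendicular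
to the links of `C` at `b`, and no two links at a vertex outside `C` are perpendicular (the tree
minus `C` consists of straight branches). Then a planar state `q` that is congruent to `p` on `C`
(but may have any number of the straight branches flipped) is joined to `p` in `S`. -/
theorem result {n : ℕ} (G : SimpleGraph (Fin n)) (p q : Fin n → EuclideanSpace ℝ (Fin 3))
    (S : Set (Fin n → EuclideanSpace ℝ (Fin 3)))
    (hG : G.IsTree)
    (hnd : ∀ a b, G.Adj a b → p a ≠ p b)
    (hang : ∀ u v w, G.Adj u v → G.Adj u w → v ≠ w →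
      ∃ k : ℕ, EuclideanGeometry.angle (p v) (p u) (p w) = (k : ℝ) * (Real.pi / 2))
    (hS : S = {r : Fin n → EuclideanSpace ℝ (Fin 3) |
      (∀ u v w, G.Adj u v → G.Adj u w →
        inner ℝ (r v - r u) (r w - r u) = inner ℝ (p v - p u) (p w - p u)) ∧
      (∀ a b c d, G.Adj a b → G.Adj c d → ¬ ((a = c ∧ b = d) ∨ (a = d ∧ b = c)) →
        ∀ x, x ∈ segment ℝ (r a) (r b) → x ∈ segment ℝ (r c) (r d) →
          ∃ v, (v = a ∨ v = b) ∧ (v = c ∨ v = d) ∧ x = r v)})
    (hp : p ∈ S) (hq : q ∈ S)
    (hpf : Module.finrank ℝ (vectorSpan ℝ (Set.range p)) ≤ 2)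
    (hqf : Module.finrank ℝ (vectorSpan ℝ (Set.range q)) ≤ 2)
    (C : Set (Fin n)) (hC : (G.induce C).Preconnected)
    (hlink : ∃ r ∈ C, ∃ s ∈ C, G.Adj r s)
    (hcore : ∀ a b c, G.Adj b a → G.Adj b c → a ∈ C → b ∈ C → c ∉ C →
      inner ℝ (p a - p b) (p c - p b) = 0)
    (hout : ∀ a b c, G.Adj b a → G.Adj b c → b ∉ C → inner ℝ (p a - p b) (p c - p b) ≠ 0)
    (hcong : ∀ a ∈ C, ∀ b ∈ C, dist (q a) (q b) = dist (p a) (p b)) :
    JoinedIn S p q := by
  subst hS
  obtain ⟨r, hr, s, hs, hrs⟩ := hlink
  exact leaf_space hG hnd hang hp hq hpf hqf hC hrs hr hs hcore hout hcong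

end Pool.Agent.Results.MP_17dcc8_co.EndBranches
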