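import Pool.Agent.H79.FS.Fin1

set_option autoImplicit false

/-! MP_17dcc8_co: a fixed-angle orthogonal tree linkage in which no path makes more than four
right-angle turns is flat-state connected. -/

namespace Pool.Agent.Results.MP_17dcc8_co.FourTurns

open Pool.FS79

/-- Let `G` be a tree linkage of shape `p` (a non-self-intersecting planar state with links of
positive length), all of whose angles between incident links are multiples of 90 degrees, and such
that every path of the tree makes at most four right-angle turns. Let `S` be its free space. Then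
every planar state `q` of the linkage is joined to `p` by a path in `S`. -/
theorem result {n : ℕ} (G : SimpleGraph (Fin n)) (p q : Fin n → EuclideanSpace ℝ (Fin 3))
    (S : Set (Fin n → EuclideanSpace ℝ (Fin 3)))
    (hG : G.IsTree)
    (hnd : ∀ a b, G.Adj a b → p a ≠ p b)
    (hang : ∀ u v w, G.Adj u v → G.Adj u w → v ≠ w →
      ∃ k : ℕ, EuclideanGeometry.angle (p v) (p u) (p w) = (k : ℝ) * (Real.pi / 2))
    (hS : S = {r : Fin n → EuclideanSpace ℝ (Fin 3) |
      (∀ u v w, G.Adj u v → G.Adj u w →
        inner ℝ (r v - r u) (r w - r u) = inner ℝ (p v - p u) (p w - p u)) ∧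
      (∀ a b c d, G.Adj a b → G.Adj c d → ¬ ((a = c ∧ b = d) ∨ (a = d ∧ b = c)) →
        ∀ x, x ∈ segment ℝ (r a) (r b) → x ∈ segment ℝ (r c) (r d) →
          ∃ v, (v = a ∨ v = b) ∧ (v = c ∨ v = d) ∧ x = r v)})
    (hp : p ∈ S) (hq : q ∈ S)
    (hpf : Module.finrank ℝ (vectorSpan ℝ (Set.range p)) ≤ 2)
    (hqf : Module.finrank ℝ (vectorSpan ℝ (Set.range q)) ≤ 2)
    (h4 : ∀ (a b : Fin n) (w : G.Walk a b), w.IsPath → turns p w.support ≤ 4) :
    JoinedIn S p q := by
  subst hS
  exact four_turns hG hnd hang hp hq hpf hqf h4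

end Pool.Agent.Results.MP_17dcc8_co.FourTurns
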