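import Pool.Agent.H79.FS.Fin2

set_option autoImplicit false

/-! MP_17dcc8_co: half-turns of the parts hanging at the vertices of one segment. -/

namespace Pool.Agent.Results.MP_17dcc8_co.HalfTurns

open Pool.FS79

/-- Let `G` be any fixed-angle linkage with shape `p` and free space `S`. Suppose that in the planar
state `p` every vertex `v` has a foot `a v` on the line `y = 0` (so `p v` has coordinates
`(a v + h v, y v)`), that every link either lies on that line or joins two vertices with the same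
foot (it belongs to the part hanging at that foot), and that hanging links leave the line
perpendicularly. Let `q` be a planar state obtained from `p` by turning some of the hanging parts by
a half-turn about their feet (`s v = -1` on those parts and `s v = 1` on the others). Then `p` and
`q` are joined in `S`. -/
theorem result {V : Type} (G : SimpleGraph V) (p q : V → EuclideanSpace ℝ (Fin 3))
    (S : Set (V → EuclideanSpace ℝ (Fin 3)))
    (hnd : ∀ a b, G.Adj a b → p a ≠ p b)
    (hS : S = {r : V → EuclideanSpace ℝ (Fin 3) |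
      (∀ u v w, G.Adj u v → G.Adj u w →
        inner ℝ (r v - r u) (r w - r u) = inner ℝ (p v - p u) (p w - p u)) ∧
      (∀ a b c d, G.Adj a b → G.Adj c d → ¬ ((a = c ∧ b = d) ∨ (a = d ∧ b = c)) →
        ∀ x, x ∈ segment ℝ (r a) (r b) → x ∈ segment ℝ (r c) (r d) →
          ∃ v, (v = a ∨ v = b) ∧ (v = c ∨ v = d) ∧ x = r v)})
    (hp : p ∈ S) (hq : q ∈ S)
    (a h y s : V → ℝ) (c e1 e2 c' f1 f2 : EuclideanSpace ℝ (Fin 3))
    (he : ‖e1‖ = 1 ∧ ‖e2‖ = 1 ∧ inner ℝ e1 e2 = 0)
    (hf : ‖f1‖ = 1 ∧ ‖f2‖ = 1 ∧ inner ℝ f1 f2 = 0)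
    (hs : ∀ v, s v = 1 ∨ s v = -1)
    (hfoot : ∀ u v, a u = a v → s u = s v)
    (hlink : ∀ u v, G.Adj u v → (h u = 0 ∧ h v = 0 ∧ y u = 0 ∧ y v = 0) ∨ a u = a v)
    (hperp : ∀ u v w, G.Adj u v → G.Adj u w → a u ≠ a v → a u = a w → h w = 0)
    (hpx : ∀ v, p v = c + ((a v + h v) • e1 + y v • e2))
    (hqx : ∀ v, q v = c' + ((a v + s v * h v) • f1 + (s v * y v) • f2)) :
    JoinedIn S p q := by
  subst hS
  exact hang_space hnd hp hq he hf ⟨hs, hfoot, hlink, hperp⟩ hpx hqx

end Pool.Agent.Results.MP_17dcc8_co.HalfTurns
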