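import Pool.Agent.H79.FS.Fin2

set_option autoImplicit false

/-! MP_17dcc8_co: two flat states with the same abscissas are joined (any graph, any angles). -/

namespace Pool.Agent.Results.MP_17dcc8_co.SameAbscissa

open Pool.FS79

/-- Let `G` be any fixed-angle linkage (any graph, any angles) with shape `p` and free space `S`,
and let `p`, `q` be two planar states with the same abscissas `x v` and arbitrary ordinates `y v`
and `y' v`, in orthonormal coordinate systems `e1, e2` and `f1, f2`. Then `p` and `q` are joined in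
`S`. -/
theorem result {V : Type} (G : SimpleGraph V) (p q : V → EuclideanSpace ℝ (Fin 3))
    (S : Set (V → EuclideanSpace ℝ (Fin 3)))
    (hnd : ∀ a b, G.Adj a b → p a ≠ p b)
    (hS : S = {r : V → EuclideanSpace ℝ (Fin 3) |
      (∀ u v w, G.Adj u v → G.Adj u w →
        inner ℝ (r v - r u) (r w - r u) = inner ℝ (p v - p u) (p w - p u)) ∧
      (∀ a b c d, G.Adj a b → G.Adj c d → ¬ ((a = c ∧ b = d) ∨ (a = d ∧ b = c)) →
        ∀ x, x ∈ segment ℝ (r a) (r b) → x ∈ segment ℝ (r c) (r d) →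
          ∃ v, (v = a ∨ v = b) ∧ (v = c ∨ v = d) ∧ x = r v)})
    (hp : p ∈ S) (hq : q ∈ S)
    (x y y' : V → ℝ) (c e1 e2 c' f1 f2 : EuclideanSpace ℝ (Fin 3))
    (he : ‖e1‖ = 1 ∧ ‖e2‖ = 1 ∧ inner ℝ e1 e2 = 0)
    (hf : ‖f1‖ = 1 ∧ ‖f2‖ = 1 ∧ inner ℝ f1 f2 = 0)
    (hpx : ∀ v, p v = c + (x v • e1 + y v • e2))
    (hqx : ∀ v, q v = c' + (x v • f1 + y' v • f2)) :
    JoinedIn S p q := by
  subst hS
  exact lift_space hnd hp hq he hf hpx hqx

end Pool.Agent.Results.MP_17dcc8_co.SameAbscissa
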